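import Pool.Agent.Lib_MP_3de5be_neg.Gdd

/-!
# Enlarging an equiangular tight frame by a group divisible design

The vectors and their inner products.
-/

set_option autoImplicit false

namespace NegEtf

open Finset
open scoped ComplexConjugate

lemma sum_dite_sub {ι : Type} [Fintype ι] (P : ι → Prop) [DecidablePred P]
    (f : {t // P t} → ℂ) :
    ∑ t, (if h : P t then f ⟨t, h⟩ else 0) = ∑ t : {t // P t}, f t := by
  have h1 : ∑ t ∈ univ.filter P, (if h : P t then f ⟨t, h⟩ else 0) =
      ∑ t : {t // P t}, (if h : P t.1 then f ⟨t.1, h⟩ else 0) :=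
    sum_subtype (univ.filter P) (by simp) _
  have h2 : ∑ t ∈ univ.filter P, (if h : P t then f ⟨t, h⟩ else 0) =
      ∑ t, (if h : P t then f ⟨t, h⟩ else 0) := by
    rw [sum_filter]
    refine sum_congr rfl fun t _ => ?_
    by_cases h : P t <;> simp [h]
  rw [← h2, h1]
  refine sum_congr rfl fun t _ => ?_
  rw [dif_pos t.2]

section weights

variable {s W : ℕ} [NeZero s]

/-- The nonzero residues. -/
def sc (g : Fin W) : ZMod (W + 1) := (Fin.succ g : Fin (W + 1))

/-- The weights: a Fourier matrix tensor a simplex. -/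
noncomputable def wt (i : ZMod s) (j : ZMod (W + 1)) (x : ZMod s × Fin W) : ℂ :=
  ZMod.stdAddChar (i * x.1) * ZMod.stdAddChar (j * sc x.2)

lemma norm_wt (i : ZMod s) (j : ZMod (W + 1)) (x : ZMod s × Fin W) : ‖wt i j x‖ = 1 := by
  unfold wt
  rw [norm_mul, AddChar.norm_apply, AddChar.norm_apply, mul_one]

lemma sum_char (n : ℕ) [NeZero n] (c : ZMod n) :
    ∑ x : ZMod n, (ZMod.stdAddChar (c * x) : ℂ) = if c = 0 then (n : ℂ) else 0 := by
  have h := AddChar.sum_mulShift c (ZMod.isPrimitive_stdAddChar n)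
  rw [ZMod.card] at h
  simp_rw [mul_comm c]
  rw [h]
  split_ifs <;> simp

lemma sum_wt (i i' : ZMod s) (j j' : ZMod (W + 1)) :
    ∑ x : ZMod s × Fin W, conj (wt i j x) * wt i' j' x =
      (if i = i' then (s : ℂ) else 0) * ((if j = j' then ((W + 1 : ℕ) : ℂ) else 0) - 1) := by
  have h1 : ∀ x : ZMod s × Fin W, conj (wt i j x) * wt i' j' x =
      ZMod.stdAddChar ((i' - i) * x.1) *
        ZMod.stdAddChar ((j' - j) * sc x.2) := by
    intro x
    unfold wt
    rw [map_mul, ← AddChar.map_neg_eq_conj, ← AddChar.map_neg_eq_conj, sub_mul, sub_mul,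
      sub_eq_add_neg, sub_eq_add_neg, AddChar.map_add_eq_mul, AddChar.map_add_eq_mul]
    ring
  rw [sum_congr rfl fun x _ => h1 x, Fintype.sum_prod_type]
  simp only
  rw [← sum_mul_sum, sum_char]
  congr 1
  · simp only [sub_eq_zero, eq_comm]
  · have h2 : ∑ x : ZMod (W + 1), (ZMod.stdAddChar ((j' - j) * x) : ℂ) =
        1 + ∑ g : Fin W, (ZMod.stdAddChar ((j' - j) * sc g) : ℂ) := by
      let f : ZMod (W + 1) → ℂ := fun x => (ZMod.stdAddChar ((j' - j) * x) : ℂ)
      have h3 : ∑ x : ZMod (W + 1), f x = f 0 + ∑ g : Fin W, f (sc g) :=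
        Fin.sum_univ_succ (n := W) f
      have h4 : f 0 = 1 := by
        simp only [f]
        rw [mul_zero, AddChar.map_zero_eq_one]
      rw [h4] at h3
      exact h3
    have h5 := sum_char (W + 1) (j' - j)
    rw [h2] at h5
    simp only [sub_eq_zero] at h5
    simp only [eq_comm (a := j)]
    linear_combination h5

end weights

section asm

variable {U Mi β : Type} [Fintype U] [Fintype Mi] [Fintype β] [DecidableEq U] [DecidableEq Mi]
variable {K : ℕ} {blk : β → Fin K → U × Mi}
variable {d s W : ℕ} [NeZero s]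

/-- The incidences at a point. -/
abbrev At (blk : β → Fin K → U × Mi) (p : U × Mi) : Type :=
  {t : β × Fin K // blk t.1 t.2 = p}

variable (ε : ∀ p : U × Mi, At blk p ≃ ZMod s × Fin W)

/-- The entries. -/
noncomputable def ent (p : U × Mi) (i : ZMod s) (j : ZMod (W + 1)) (t : β × Fin K) : ℂ :=
  if h : blk t.1 t.2 = p then wt i j (ε p ⟨t, h⟩) else 0

omit [Fintype U] [Fintype Mi] [Fintype β] in
lemma ent_of_ne (p : U × Mi) (i : ZMod s) (j : ZMod (W + 1)) (t : β × Fin K)
    (h : blk t.1 t.2 ≠ p) : ent ε p i j t = 0 := dif_neg h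

omit [Fintype U] [Fintype Mi] [Fintype β] in
lemma norm_ent (p : U × Mi) (i : ZMod s) (j : ZMod (W + 1)) (t : β × Fin K)
    (h : blk t.1 t.2 = p) : ‖ent ε p i j t‖ = 1 := by
  unfold ent
  rw [dif_pos h, norm_wt]

/-- The sum over the blocks of the products of the entries. -/
noncomputable def prodSum (p p' : U × Mi) (i i' : ZMod s) (j j' : ZMod (W + 1)) : ℂ :=
  ∑ b : β, conj (∑ k : Fin K, ent ε p i j (b, k)) * ∑ k : Fin K, ent ε p' i' j' (b, k)

omit [Fintype U] [Fintype Mi] in
lemma prodSum_eq (p p' : U × Mi) (i i' : ZMod s) (j j' : ZMod (W + 1)) :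
    prodSum ε p p' i i' j j' =
      ∑ b : β, ∑ k : Fin K, ∑ k' : Fin K, conj (ent ε p i j (b, k)) * ent ε p' i' j' (b, k') := by
  unfold prodSum
  refine sum_congr rfl fun b _ => ?_
  rw [map_sum, sum_mul_sum]

omit [Fintype U] [Fintype Mi] in
lemma prodSum_self (h : IsGDD K Prod.fst blk) (p : U × Mi) (i i' : ZMod s)
    (j j' : ZMod (W + 1)) :
    prodSum ε p p i i' j j' =
      (if i = i' then (s : ℂ) else 0) * ((if j = j' then ((W + 1 : ℕ) : ℂ) else 0) - 1) := by
  rw [prodSum_eq, ← sum_wt]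
  have h1 : ∀ b : β, ∀ k : Fin K, ∑ k' : Fin K, conj (ent ε p i j (b, k)) * ent ε p i' j' (b, k') =
      conj (ent ε p i j (b, k)) * ent ε p i' j' (b, k) := by
    intro b k
    refine sum_eq_single k (fun k' _ hk => ?_) fun h2 => absurd (mem_univ _) h2
    by_cases h2 : blk b k = p
    · have h3 : blk b k' ≠ p := by
        intro h3
        exact h.tr b k' k hk (by rw [h2, h3])
      rw [ent_of_ne ε p i' j' (b, k') h3, mul_zero]
    · rw [ent_of_ne ε p i j (b, k) h2, map_zero, zero_mul]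
  rw [sum_congr rfl fun b _ => sum_congr rfl fun k _ => h1 b k]
  rw [← Fintype.sum_prod_type (fun t : β × Fin K => conj (ent ε p i j t) * ent ε p i' j' t)]
  have h2 : ∀ t : β × Fin K, conj (ent ε p i j t) * ent ε p i' j' t =
      if h : blk t.1 t.2 = p then
        (fun u : At blk p => conj (wt i j (ε p u)) * wt i' j' (ε p u)) ⟨t, h⟩ else 0 := by
    intro t
    unfold ent
    by_cases h3 : blk t.1 t.2 = p
    · rw [dif_pos h3, dif_pos h3, dif_pos h3]
    · rw [dif_neg h3, dif_neg h3, dif_neg h3, mul_zero]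
  rw [sum_congr rfl fun t _ => h2 t,
    sum_dite_sub (fun t : β × Fin K => blk t.1 t.2 = p)
      (fun u : At blk p => conj (wt i j (ε p u)) * wt i' j' (ε p u))]
  exact Equiv.sum_comp (ε p) (fun x => conj (wt i j x) * wt i' j' x)

omit [Fintype U] [Fintype Mi] in
lemma prodSum_group (h : IsGDD K Prod.fst blk) (p p' : U × Mi) (hp : p ≠ p')
    (hg : p.1 = p'.1) (i i' : ZMod s) (j j' : ZMod (W + 1)) :
    prodSum ε p p' i i' j j' = 0 := by
  rw [prodSum_eq]
  refine sum_eq_zero fun b _ => sum_eq_zero fun k _ => sum_eq_zero fun k' _ => ?_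
  by_cases h2 : blk b k = p
  · have h3 : blk b k' ≠ p' := by
      intro h3
      by_cases hk : k = k'
      · subst hk
        exact hp (h2.symm.trans h3)
      · exact h.tr b k k' hk (by rw [h2, h3, hg])
    rw [ent_of_ne ε p' i' j' (b, k') h3, mul_zero]
  · rw [ent_of_ne ε p i j (b, k) h2, map_zero, zero_mul]

omit [Fintype U] [Fintype Mi] in
lemma norm_prodSum (h : IsGDD K Prod.fst blk) (p p' : U × Mi)
    (hg : p.1 ≠ p'.1) (i i' : ZMod s) (j j' : ZMod (W + 1)) :
    ‖prodSum ε p p' i i' j j'‖ = 1 := by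
  rw [prodSum_eq]
  obtain ⟨b, k, k', h1, h2⟩ := h.ex p p' hg
  have h3 : ∀ b' l l', ¬(b' = b ∧ l = k ∧ l' = k') →
      conj (ent ε p i j (b', l)) * ent ε p' i' j' (b', l') = 0 := by
    intro b' l l' hne
    by_cases h4 : blk b' l = p
    · by_cases h5 : blk b' l' = p'
      · exact absurd (h.un p p' hg b' l l' b k k' h4 h5 h1 h2) hne
      · rw [ent_of_ne ε p' i' j' (b', l') h5, mul_zero]
    · rw [ent_of_ne ε p i j (b', l) h4, map_zero, zero_mul]
  have h4 : ∑ b : β, ∑ k : Fin K, ∑ k' : Fin K,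
      conj (ent ε p i j (b, k)) * ent ε p' i' j' (b, k') =
      conj (ent ε p i j (b, k)) * ent ε p' i' j' (b, k') := by
    rw [sum_eq_single b, sum_eq_single k, sum_eq_single k']
    · exact fun l' _ hl => h3 b k l' fun h5 => hl h5.2.2
    · exact fun h5 => absurd (mem_univ _) h5
    · exact fun l _ hl => sum_eq_zero fun l' _ => h3 b l l' fun h5 => hl h5.2.1
    · exact fun h5 => absurd (mem_univ _) h5
    · exact fun b' _ hb => sum_eq_zero fun l _ => sum_eq_zero fun l' _ =>
        h3 b' l l' fun h5 => hb h5.1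
    · exact fun h5 => absurd (mem_univ _) h5
  rw [h4, norm_mul, RCLike.norm_conj, norm_ent ε p i j (b, k) h1, norm_ent ε p' i' j' (b, k') h2,
    mul_one]

variable (φ : Mi × ZMod s → EuclideanSpace ℂ (Fin d))

/-- The vectors. -/
noncomputable def vec (l : (U × Mi) × (ZMod s × ZMod (W + 1))) :
    EuclideanSpace ℂ ((U × Fin d) ⊕ β) :=
  WithLp.toLp 2 (Sum.elim (fun x => if x.1 = l.1.1 then φ (l.1.2, l.2.1) x.2 else 0)
    (fun b => ∑ k : Fin K, ent ε l.1 l.2.1 l.2.2 (b, k)))

omit [Fintype Mi] in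
lemma inner_vec (l l' : (U × Mi) × (ZMod s × ZMod (W + 1))) :
    (inner ℂ (vec ε φ l) (vec ε φ l') : ℂ) =
      (if l.1.1 = l'.1.1 then (inner ℂ (φ (l.1.2, l.2.1)) (φ (l'.1.2, l'.2.1)) : ℂ) else 0) +
        prodSum ε l.1 l'.1 l.2.1 l'.2.1 l.2.2 l'.2.2 := by
  rw [PiLp.inner_apply, Fintype.sum_sum_type]
  congr 1
  · rw [Fintype.sum_prod_type]
    simp only [vec, Sum.elim_inl]
    split_ifs with h
    · rw [sum_eq_single l.1.1]
      · rw [PiLp.inner_apply]
        refine sum_congr rfl fun x _ => ?_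
        rw [if_pos rfl, if_pos h]
      · intro u _ hu
        refine sum_eq_zero fun x _ => ?_
        rw [if_neg hu, inner_zero_left]
      · exact fun h5 => absurd (mem_univ _) h5
    · refine sum_eq_zero fun u _ => sum_eq_zero fun x _ => ?_
      by_cases hu : u = l.1.1
      · rw [if_neg (fun h2 => h (hu.symm.trans h2) : ¬ u = l'.1.1), inner_zero_right]
      · rw [if_neg hu, inner_zero_left]
  · unfold prodSum
    refine sum_congr rfl fun b _ => ?_
    simp only [vec, Sum.elim_inr]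
    rw [RCLike.inner_apply, mul_comm]

end asm

end NegEtf
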