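import Pool.Agent.Lib_MP_3de5be_neg.Seq

/-!
# Class functions modulo `2 n` with `L (-1) = n`
-/

set_option autoImplicit false

namespace NegEtf

lemma two_mul_val {N : ℕ} [NeZero N] (z : ZMod N) (h : z + z = 0) (h0 : z ≠ 0) :
    2 * z.val = N := by
  have h1 : ((2 * z.val : ℕ) : ZMod N) = 0 := by
    rw [Nat.cast_mul, ZMod.natCast_zmod_val]
    push_cast
    rw [two_mul, h]
  rw [ZMod.natCast_eq_zero_iff] at h1
  obtain ⟨c, hc⟩ := h1
  have h2 := z.val_lt
  have h3 : z.val ≠ 0 := fun h4 => h0 ((ZMod.val_eq_zero z).1 h4)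
  have h4 : c = 1 := by
    have h5 : c ≠ 0 := by
      rintro rfl
      omega
    by_contra h6
    have h7 : 2 ≤ c := by omega
    have h8 : N * 2 ≤ N * c := Nat.mul_le_mul_left _ h7
    omega
  rw [hc, h4, mul_one]

theorem exists_cls (n : ℕ) (hn : 1 ≤ n) (B : ℕ) :
    ∃ (q : ℕ) (hq : Fact q.Prime), B < q ∧ ∃ L : ZMod q → ZMod (2 * n),
      IsCls (2 * n) L ∧ L (-1) = n := by
  have hne : NeZero (4 * n) := ⟨by omega⟩
  have hne2 : NeZero (2 * n) := ⟨by omega⟩
  have hu : IsUnit ((1 + 2 * n : ℕ) : ZMod (4 * n)) := by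
    rw [ZMod.isUnit_iff_coprime]
    have h1 : Nat.Coprime (1 + 2 * n) (2 * n) := by
      rw [Nat.coprime_add_self_left]
      exact Nat.coprime_one_left _
    have h2 : Nat.Coprime (1 + 2 * n) 2 := Nat.Coprime.coprime_mul_right_right h1
    have h3 := Nat.Coprime.mul_right h2 h1
    rwa [← mul_assoc] at h3
  obtain ⟨q, hqB, hqp, hqm⟩ := Nat.forall_exists_prime_gt_and_eq_mod hu (max B 3)
  have hq : Fact q.Prime := ⟨hqp⟩
  have hqB' : B < q := (le_max_left _ _).trans_lt hqB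
  have hq3 : 3 < q := (le_max_right _ _).trans_lt hqB
  refine ⟨q, hq, hqB', ?_⟩
  -- `q = 1 + 2 n + 4 n t`
  have h1 : ∃ t, q = 1 + 2 * n + 4 * n * t ∨ q + 4 * n * t = 1 + 2 * n := by
    have h2 := (ZMod.natCast_eq_natCast_iff _ _ _).1 hqm
    rcases le_total (1 + 2 * n) q with h3 | h3
    · obtain ⟨t, ht⟩ := (Nat.modEq_iff_dvd' h3).1 h2.symm
      exact ⟨t, Or.inl (by omega)⟩
    · obtain ⟨t, ht⟩ := (Nat.modEq_iff_dvd' h3).1 h2
      exact ⟨t, Or.inr (by omega)⟩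
  have h2 : ∃ t, q - 1 = n * (2 * (2 * t + 1)) := by
    obtain ⟨t, h3 | h3⟩ := h1
    · refine ⟨t, ?_⟩
      rw [h3]
      have : 1 + 2 * n + 4 * n * t - 1 = 2 * n + 4 * n * t := by omega
      rw [this]
      ring
    · rcases Nat.eq_zero_or_pos t with rfl | ht
      · refine ⟨0, ?_⟩
        omega
      · exfalso
        have h4 : 4 * n * 1 ≤ 4 * n * t := Nat.mul_le_mul_left _ ht
        omega
  obtain ⟨t, ht⟩ := h2
  have hcard : Nat.card (ZMod q)ˣ = q - 1 := by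
    rw [Nat.card_eq_fintype_card, ZMod.card_units]
  have hdvd : 2 * n ∣ Nat.card (ZMod q)ˣ := by
    rw [hcard, ht]
    exact ⟨2 * t + 1, by ring⟩
  have hNe : NeZero (Nat.card (ZMod q)ˣ) := ⟨by rw [hcard]; omega⟩
  let ε : Multiplicative (ZMod (Nat.card (ZMod q)ˣ)) ≃* (ZMod q)ˣ := zmodCyclicMulEquiv inferInstance
  let ψ : (ZMod q)ˣ → ZMod (2 * n) := fun u =>
    ZMod.castHom hdvd (ZMod (2 * n)) (Multiplicative.toAdd (ε.symm u))
  have hψm : ∀ u v, ψ (u * v) = ψ u + ψ v := by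
    intro u v
    simp only [ψ]
    rw [map_mul, toAdd_mul, map_add]
  have hψs : ∀ c, ∃ u, ψ u = c := by
    intro c
    refine ⟨ε (Multiplicative.ofAdd ((c.val : ℕ) : ZMod (Nat.card (ZMod q)ˣ))), ?_⟩
    simp only [ψ]
    rw [MulEquiv.symm_apply_apply, toAdd_ofAdd, map_natCast, ZMod.natCast_zmod_val]
  have hψn : ψ (-1) = n := by
    set z : ZMod (Nat.card (ZMod q)ˣ) := Multiplicative.toAdd (ε.symm (-1)) with hz
    have h3 : z + z = 0 := by
      rw [hz, ← toAdd_mul, ← map_mul]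
      simp
    have h4 : z ≠ 0 := by
      intro h5
      rw [hz, toAdd_eq_zero] at h5
      have h6 : (-1 : (ZMod q)ˣ) = 1 := by
        have := (MulEquiv.map_eq_one_iff ε.symm).1 h5
        exact this
      have h7 : ((-1 : (ZMod q)ˣ) : ZMod q) = 1 := by rw [h6]; rfl
      have h8 : (-1 : ZMod q) = 1 := by simpa using h7
      have h9 : ((2 : ℕ) : ZMod q) = 0 := by
        push_cast
        linear_combination -h8
      rw [ZMod.natCast_eq_zero_iff] at h9
      have := Nat.le_of_dvd (by norm_num) h9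
      omega
    have h5 := (two_mul_val z h3 h4).trans (hcard.trans ht)
    have h6 : z.val = n * (2 * t + 1) := by
      have : 2 * z.val = 2 * (n * (2 * t + 1)) := by rw [h5]; ring
      omega
    show ZMod.castHom hdvd (ZMod (2 * n)) z = n
    rw [ZMod.castHom_apply, ← ZMod.natCast_val, h6]
    have h7 : ((n * (2 * t + 1) : ℕ) : ZMod (2 * n)) = ((2 * n : ℕ) : ZMod (2 * n)) * t + n := by
      push_cast
      ring
    rw [h7, ZMod.natCast_self, zero_mul, zero_add]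
  refine ⟨fun x => if h : x = 0 then 0 else ψ (Units.mk0 x h), ⟨?_, ?_⟩, ?_⟩
  · intro x y hx hy
    rw [dif_neg hx, dif_neg hy, dif_neg (mul_ne_zero hx hy), ← hψm]
    congr 1
    ext
    simp
  · intro c
    obtain ⟨u, hu⟩ := hψs c
    refine ⟨u, u.ne_zero, ?_⟩
    rw [dif_neg u.ne_zero, Units.mk0_val, hu]
  · have h3 : (-1 : ZMod q) ≠ 0 := by simp
    show (if h : (-1 : ZMod q) = 0 then 0 else ψ (Units.mk0 (-1) h)) = n
    rw [dif_neg h3, ← hψn]
    congr 1
    ext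
    simp

end NegEtf
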