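import Pool.Agent.Lib_MP_3de5be_neg.Asm
import Pool.Agent.Lib_MP_3de5be_sic.OfFid

/-!
# Negative equiangular tight frames of type `(s (s + 1), -1, S)`
-/

set_option autoImplicit false

namespace NegEtf

open Finset Module
open scoped ComplexConjugate

/-- The enlargement, with the Welch bound. -/
theorem enlarge {U Mi β : Type} [Fintype U] [Fintype Mi] [Fintype β] [DecidableEq U]
    [DecidableEq Mi] {K : ℕ} {blk : β → Fin K → U × Mi} {d s W : ℕ} [NeZero s]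
    (h : IsGDD K Prod.fst blk) (ε : ∀ p : U × Mi, At blk p ≃ ZMod s × Fin W)
    (φ : Mi × ZMod s → EuclideanSpace ℂ (Fin d))
    (hφ1 : ∀ x, (inner ℂ (φ x) (φ x) : ℂ) = ((s + 1 : ℕ) : ℂ))
    (hφ2 : ∀ x y, x ≠ y → ‖(inner ℂ (φ x) (φ y) : ℂ)‖ = 1)
    (N D S : ℕ) (hN : Fintype.card ((U × Mi) × (ZMod s × ZMod (W + 1))) = N)
    (hD : Fintype.card U * d + Fintype.card β = D) (hS : s + 1 + s * W = S)
    (hD1 : 1 ≤ D) (hDN : D < N) (hN2 : 2 ≤ N)
    (hw : ((N : ℝ) - D) / (D * ((N : ℝ) - 1)) = 1 / (S : ℝ) ^ 2) :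
    SicEtf.cFrame N D = Real.sqrt (((N : ℝ) - D) / (D * ((N : ℝ) - 1))) ∧
      SicEtf.cFrame N (N - D) =
        Real.sqrt (((N : ℝ) - (N - D : ℕ)) / ((N - D : ℕ) * ((N : ℝ) - 1))) := by
  have hSpos : (0 : ℝ) < S := by
    rw [← hS]
    positivity
  -- inner products
  have hin1 : ∀ l : (U × Mi) × (ZMod s × ZMod (W + 1)),
      (inner ℂ (vec ε φ l) (vec ε φ l) : ℂ) = (S : ℂ) := by
    intro l
    rw [inner_vec, if_pos rfl, hφ1, prodSum_self ε h, if_pos rfl, if_pos rfl, ← hS]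
    push_cast
    ring
  have hin2 : ∀ l l' : (U × Mi) × (ZMod s × ZMod (W + 1)), l ≠ l' →
      ‖(inner ℂ (vec ε φ l) (vec ε φ l') : ℂ)‖ = 1 := by
    rintro ⟨⟨u, m⟩, ⟨i, j⟩⟩ ⟨⟨u', m'⟩, ⟨i', j'⟩⟩ hne
    rw [inner_vec]
    simp only
    by_cases hu : u = u'
    · subst hu
      rw [if_pos rfl]
      by_cases hm : m = m'
      · subst hm
        rw [prodSum_self ε h]
        by_cases hi : i = i'
        · subst hi
          have hj : j ≠ j' := by
            rintro rfl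
            exact hne rfl
          rw [hφ1, if_pos rfl, if_neg hj]
          have : ((s + 1 : ℕ) : ℂ) + (s : ℂ) * (0 - 1) = 1 := by
            push_cast
            ring
          rw [this, norm_one]
        · rw [if_neg hi, zero_mul, add_zero]
          apply hφ2
          intro h1
          exact hi (Prod.mk.inj h1).2
      · rw [prodSum_group ε h _ _ (fun h1 => hm (Prod.mk.inj h1).2) rfl, add_zero]
        apply hφ2
        intro h1
        exact hm (Prod.mk.inj h1).1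
    · rw [if_neg hu, zero_add]
      exact norm_prodSum ε h _ _ hu _ _ _ _
  -- the frames
  have hfr : finrank ℂ (EuclideanSpace ℂ ((U × Fin d) ⊕ β)) = D := by
    rw [finrank_euclideanSpace, Fintype.card_sum, Fintype.card_prod, Fintype.card_fin, hD]
  let B := (stdOrthonormalBasis ℂ (EuclideanSpace ℂ ((U × Fin d) ⊕ β))).reindex (finCongr hfr)
  let e : Fin N ≃ (U × Mi) × (ZMod s × ZMod (W + 1)) := (Fintype.equivFinOfCardEq hN).symm
  let g : Fin N → EuclideanSpace ℂ (Fin D) := fun l =>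
    B.repr (((1 / Real.sqrt S : ℝ) : ℂ) • vec ε φ (e l))
  have hg : ∀ l m, (inner ℂ (g l) (g m) : ℂ) =
      ((1 / S : ℝ) : ℂ) * inner ℂ (vec ε φ (e l)) (vec ε φ (e m)) := by
    intro l m
    simp only [g]
    rw [LinearIsometryEquiv.inner_map_map, inner_smul_left, inner_smul_right, Complex.conj_ofReal,
      ← mul_assoc, ← Complex.ofReal_mul]
    congr 2
    rw [div_mul_div_comm, one_mul, Real.mul_self_sqrt hSpos.le]
  have hunit : ∀ l, ‖g l‖ = 1 := by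
    intro l
    have h1 : ((‖g l‖ ^ 2 : ℝ) : ℂ) = 1 := by
      have h2 := inner_self_eq_norm_sq_to_K (𝕜 := ℂ) (g l)
      rw [hg, hin1] at h2
      have h3 : ((1 / S : ℝ) : ℂ) * (S : ℂ) = 1 := by
        push_cast
        have : (S : ℂ) ≠ 0 := by exact_mod_cast hSpos.ne'
        field_simp
      rw [h3] at h2
      rw [h2]
      push_cast
      rfl
    have h2 : ‖g l‖ ^ 2 = 1 := by exact_mod_cast h1
    exact (pow_eq_one_iff_of_nonneg (norm_nonneg _) two_ne_zero).1 h2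
  have hang : ∀ l m, l ≠ m → ‖(inner ℂ (g l) (g m) : ℂ)‖ ^ 2 ≤
      ((N : ℝ) - D) / (D * ((N : ℝ) - 1)) := by
    intro l m hlm
    rw [hg, norm_mul, hin2 _ _ (fun h1 => hlm (e.injective h1)), mul_one, Complex.norm_real,
      Real.norm_eq_abs, sq_abs, hw, div_pow, one_pow]
  exact ⟨SicEtf.cFrame_eq hD1 hDN.le hN2 g hunit hang,
    SicEtf.cFrame_eq_compl hD1 hDN hN2 g hunit hang⟩

/-- The vectors of a Weyl-Heisenberg covariant SIC in dimension `n (n + 2)`, split into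
`n (n + 2) ^ 2` groups of `n` vectors. -/
theorem base (n : ℕ) (hn : 1 ≤ n) [NeZero (n * (n + 2))] [NeZero n] [NeZero (n * (n + 2) ^ 2)]
    (f : ZMod (n * (n + 2)) → ℂ) (h1 : ∑ i, ‖f i‖ ^ 2 = 1)
    (h2 : ∀ a b : ZMod (n * (n + 2)), ¬(a = 0 ∧ b = 0) →
      ‖Ghost.braket f (Ghost.displacement (n * (n + 2)) a b) f‖ ^ 2 =
        1 / (((n * (n + 2) : ℕ) : ℝ) + 1)) :
    ∃ φ : ZMod (n * (n + 2) ^ 2) × ZMod n → EuclideanSpace ℂ (Fin (n * (n + 2))),
      (∀ x, (inner ℂ (φ x) (φ x) : ℂ) = ((n + 1 : ℕ) : ℂ)) ∧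
        ∀ x y, x ≠ y → ‖(inner ℂ (φ x) (φ y) : ℂ)‖ = 1 := by
  have hcard : Fintype.card (ZMod (n * (n + 2) ^ 2) × ZMod n) =
      Fintype.card (ZMod (n * (n + 2)) × ZMod (n * (n + 2))) := by
    rw [Fintype.card_prod, Fintype.card_prod, ZMod.card, ZMod.card, ZMod.card]
    ring
  let e := Fintype.equivOfCardEq hcard
  have hs : (0 : ℝ) < (n + 1 : ℕ) := by positivity
  have hin : ∀ x y, (inner ℂ (((Real.sqrt (n + 1 : ℕ) : ℝ) : ℂ) • SicEtf.orb f (e x))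
      (((Real.sqrt (n + 1 : ℕ) : ℝ) : ℂ) • SicEtf.orb f (e y)) : ℂ) =
      ((n + 1 : ℕ) : ℂ) * inner ℂ (SicEtf.orb f (e x)) (SicEtf.orb f (e y)) := by
    intro x y
    rw [inner_smul_left, inner_smul_right, Complex.conj_ofReal, ← mul_assoc, ← Complex.ofReal_mul,
      Real.mul_self_sqrt hs.le, Complex.ofReal_natCast]
  refine ⟨fun x => ((Real.sqrt (n + 1 : ℕ) : ℝ) : ℂ) • SicEtf.orb f (e x), fun x => ?_,
    fun x y hxy => ?_⟩
  · rw [hin, inner_self_eq_norm_sq_to_K, SicEtf.norm_orb f h1]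
    push_cast
    ring
  · rw [hin, norm_mul, SicEtf.inner_orb]
    have h3 := h2 ((e y).1 - (e x).1) ((e y).2 - (e x).2) (by
      rintro ⟨h4, h5⟩
      apply hxy
      apply e.injective
      exact (Prod.ext (sub_eq_zero.1 h4) (sub_eq_zero.1 h5)).symm)
    set r := ‖Ghost.braket f (Ghost.displacement (n * (n + 2)) ((e y).1 - (e x).1)
      ((e y).2 - (e x).2)) f‖ with hr
    have h4 : (((n * (n + 2) : ℕ) : ℝ) + 1) = ((n : ℝ) + 1) ^ 2 := by
      push_cast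
      ring
    rw [h4] at h3
    have h5 : r = 1 / ((n : ℝ) + 1) := by
      have h6 : r ^ 2 = (1 / ((n : ℝ) + 1)) ^ 2 := by rw [h3, div_pow, one_pow]
      exact (pow_left_inj₀ (norm_nonneg _) (by positivity) two_ne_zero).1 h6
    rw [h5, Complex.norm_natCast]
    push_cast
    field_simp

/-- The arithmetic of the parameters. -/
theorem numeric (n M q t D : ℕ) (hn : 1 ≤ n) (hM : M = n * (n + 2) ^ 2)
    (hqt : q = 1 + (n ^ 2 + 3 * n + 1) * t)
    (hDK : (n + 1) * (n + 2) * D = (n + 1 + M * t) * (M * q)) (hD1 : 1 ≤ D) (ht1 : 1 ≤ t) :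
    D < (n + M * t) * (M * q) ∧ 2 ≤ (n + M * t) * (M * q) ∧
      ((((n + M * t) * (M * q) : ℕ) : ℝ) - D) / (D * ((((n + M * t) * (M * q) : ℕ) : ℝ) - 1)) =
        1 / ((n + 1 + M * t : ℕ) : ℝ) ^ 2 := by
  have hM0 : 0 < M := by rw [hM]; positivity
  have hq1 : 1 ≤ q := by omega
  have hMt : 1 ≤ M * t := Nat.mul_pos hM0 ht1
  have hMq : 1 ≤ M * q := Nat.mul_pos hM0 hq1
  have hDN : D < (n + M * t) * (M * q) := by
    have h1 : (n + 1) * (n + 2) * D < (n + 1) * (n + 2) * ((n + M * t) * (M * q)) := by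
      rw [hDK]
      have h2 : n + 1 + M * t < (n + 1) * (n + 2) * (n + M * t) := by nlinarith
      calc (n + 1 + M * t) * (M * q) < ((n + 1) * (n + 2) * (n + M * t)) * (M * q) :=
            Nat.mul_lt_mul_of_pos_right h2 hMq
        _ = _ := by ring
    exact lt_of_mul_lt_mul_left h1 (Nat.zero_le _)
  refine ⟨hDN, by omega, ?_⟩
  have e1 : ((n : ℝ) + 1) * (n + 2) * D = ((n + 1 + M * t : ℕ) : ℝ) * ((M : ℝ) * q) := by
    exact_mod_cast hDK
  have e2 : (((n + M * t) * (M * q) : ℕ) : ℝ) = (((n + 1 + M * t : ℕ) : ℝ) - 1) * ((M : ℝ) * q) := by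
    push_cast
    ring
  have e4 : (M : ℝ) * q = ((n + 1 + M * t : ℕ) : ℝ) * (((n : ℝ) + 1) * (n + 2) - 1) - 1 := by
    have e5 : (q : ℝ) = 1 + ((n : ℝ) ^ 2 + 3 * n + 1) * t := by rw [hqt]; push_cast; ring
    have e6 : (M : ℝ) = n * (n + 2) ^ 2 := by rw [hM]; push_cast; ring
    push_cast
    rw [e5, e6]
    ring
  have hDpos : (0 : ℝ) < D := by exact_mod_cast hD1
  have hNpos : (0 : ℝ) < (((n + M * t) * (M * q) : ℕ) : ℝ) - 1 := by
    have : (1 : ℝ) < (((n + M * t) * (M * q) : ℕ) : ℝ) := by exact_mod_cast (by omega)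
    linarith
  have hSpos : (0 : ℝ) < ((n + 1 + M * t : ℕ) : ℝ) := by positivity
  have hKpos : (0 : ℝ) < ((n : ℝ) + 1) * (n + 2) := by positivity
  rw [div_eq_div_iff (mul_ne_zero hDpos.ne' hNpos.ne') (by positivity), e2]
  set S : ℝ := ((n + 1 + M * t : ℕ) : ℝ) with hS
  set K : ℝ := ((n : ℝ) + 1) * (n + 2) with hK
  have e8 : (D : ℝ) = S * (M * q) / K := by
    rw [eq_div_iff hKpos.ne', ← e1]
    ring
  rw [e8, e4]
  field_simp
  ring

/-- Negative equiangular tight frames. -/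
theorem main (hz : ∀ (d : ℕ) [NeZero d], 2 ≤ d → ∃ f : ZMod d → ℂ, ∑ i, ‖f i‖ ^ 2 = 1 ∧
      ∀ a b : ZMod d, ¬(a = 0 ∧ b = 0) →
        ‖Ghost.braket f (Ghost.displacement d a b) f‖ ^ 2 = 1 / ((d : ℝ) + 1))
    (n : ℕ) (hn : 1 ≤ n) (B : ℕ) : ∃ q t S N D : ℕ, q.Prime ∧ B < q ∧
      q = 1 + (n ^ 2 + 3 * n + 1) * t ∧ S = n + 1 + n * (n + 2) ^ 2 * t ∧
      N = (n + n * (n + 2) ^ 2 * t) * (n * (n + 2) ^ 2 * q) ∧
      (n + 1) * (n + 2) * D = S * (n * (n + 2) ^ 2 * q) ∧ 1 ≤ D ∧ D < N ∧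
      SicEtf.cFrame N D = Real.sqrt (((N : ℝ) - D) / (D * ((N : ℝ) - 1))) ∧
      SicEtf.cFrame N (N - D) =
        Real.sqrt (((N : ℝ) - (N - D : ℕ)) / ((N - D : ℕ) * ((N : ℝ) - 1))) := by
  classical
  have i1 : NeZero n := ⟨by omega⟩
  have hM0 : 0 < n * (n + 2) ^ 2 := by positivity
  have hd0 : 0 < n * (n + 2) := by positivity
  have i2 : NeZero (n * (n + 2) ^ 2) := ⟨hM0.ne'⟩
  have i3 : NeZero (n * (n + 2)) := ⟨hd0.ne'⟩
  obtain ⟨f, hf1, hf2⟩ := hz (n * (n + 2)) (by nlinarith)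
  obtain ⟨φ, hφ1, hφ2⟩ := base n hn f hf1 hf2
  obtain ⟨q, hq, hBq, β, hβ, blk, hg⟩ := exists_gdd (ZMod (n * (n + 2) ^ 2)) (n ^ 2 + 3 * n + 1)
    (by nlinarith) B
  have hq1 : 1 ≤ q := hq.out.one_lt.le
  have hcp : ∀ p : ZMod q × ZMod (n * (n + 2) ^ 2),
      Fintype.card {p' : ZMod q × ZMod (n * (n + 2) ^ 2) // p.1 ≠ p'.1} =
        (q - 1) * (n * (n + 2) ^ 2) := by
    intro p
    have h1 : Fintype.card {p' : ZMod q × ZMod (n * (n + 2) ^ 2) // p.1 = p'.1} =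
        n * (n + 2) ^ 2 := by
      rw [Fintype.card_congr (β := ZMod (n * (n + 2) ^ 2))
        { toFun := fun x => x.1.2
          invFun := fun g => ⟨(p.1, g), rfl⟩
          left_inv := by
            rintro ⟨⟨u, g⟩, hu⟩
            simp only at hu
            subst hu
            rfl
          right_inv := fun g => rfl }, ZMod.card]
    rw [Fintype.card_subtype_compl, h1, Fintype.card_prod, ZMod.card, ZMod.card, Nat.sub_mul,
      one_mul]
  have hR : ∀ p, Fintype.card (At blk p) * (n ^ 2 + 3 * n + 1) = (q - 1) * (n * (n + 2) ^ 2) := by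
    intro p
    have h1 := card_at hg p
    rw [hcp, Nat.add_sub_cancel] at h1
    exact h1
  have hkM : (n + 1) * (n ^ 2 + 3 * n + 1) = n * (n + 2) ^ 2 + 1 := by ring
  -- `q - 1 = k t`
  have hcop : Nat.Coprime (n ^ 2 + 3 * n + 1) (n * (n + 2) ^ 2) := by
    rw [Nat.coprime_iff_gcd_eq_one]
    have h1 := Nat.gcd_dvd_left (n ^ 2 + 3 * n + 1) (n * (n + 2) ^ 2)
    have h2 := Nat.gcd_dvd_right (n ^ 2 + 3 * n + 1) (n * (n + 2) ^ 2)
    have h3 : Nat.gcd (n ^ 2 + 3 * n + 1) (n * (n + 2) ^ 2) ∣ n * (n + 2) ^ 2 + 1 :=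
      hkM ▸ Dvd.dvd.mul_left h1 _
    exact Nat.dvd_one.1 ((Nat.dvd_add_right h2).1 h3)
  obtain ⟨t, ht⟩ : n ^ 2 + 3 * n + 1 ∣ q - 1 := by
    have h1 : n ^ 2 + 3 * n + 1 ∣ (q - 1) * (n * (n + 2) ^ 2) :=
      ⟨_, ((hR (0, 0)).symm.trans (mul_comm _ _))⟩
    exact hcop.dvd_of_dvd_mul_right h1
  have hRt : ∀ p, Fintype.card (At blk p) = n * (n + 2) ^ 2 * t := by
    intro p
    have h1 := hR p
    rw [ht] at h1
    have h2 : 0 < n ^ 2 + 3 * n + 1 := by positivity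
    apply Nat.eq_of_mul_eq_mul_right h2
    rw [h1]
    ring
  have hε : ∀ p, Nonempty (At blk p ≃ ZMod n × Fin ((n + 2) ^ 2 * t)) := by
    intro p
    refine ⟨Fintype.equivOfCardEq ?_⟩
    rw [hRt, Fintype.card_prod, ZMod.card, Fintype.card_fin, mul_assoc]
  let ε := fun p => (hε p).some
  have hβc := card_blocks (blk := blk) _ hRt
  rw [Fintype.card_prod, ZMod.card, ZMod.card] at hβc
  have hqt : q = 1 + (n ^ 2 + 3 * n + 1) * t := by omega
  have ht1 : 1 ≤ t := by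
    by_contra h1
    have h2 : t = 0 := by omega
    rw [h2, mul_zero, add_zero] at hqt
    exact absurd hqt hq.out.one_lt.ne'
  have hDK : (n + 1) * (n + 2) * (q * (n * (n + 2)) + Fintype.card β) =
      (n + 1 + n * (n + 2) ^ 2 * t) * (n * (n + 2) ^ 2 * q) := by
    have h1 : (n + 1) * (n + 2) * Fintype.card β =
        q * (n * (n + 2) ^ 2) * (n * (n + 2) ^ 2 * t) := by
      rw [← hβc]
      ring
    calc (n + 1) * (n + 2) * (q * (n * (n + 2)) + Fintype.card β)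
        = (n + 1) * (n * (n + 2) ^ 2) * q + (n + 1) * (n + 2) * Fintype.card β := by ring
      _ = _ := by rw [h1]; ring
  have hD1 : 1 ≤ q * (n * (n + 2)) + Fintype.card β := by
    have : 1 * 1 ≤ q * (n * (n + 2)) := Nat.mul_le_mul hq1 hd0
    omega
  obtain ⟨hDN, hN2, hw⟩ := numeric n (n * (n + 2) ^ 2) q t _ hn rfl hqt hDK hD1 ht1
  refine ⟨q, t, n + 1 + n * (n + 2) ^ 2 * t, _, _, hq.out, hBq, hqt, rfl, rfl, hDK,
    hD1, hDN, ?_⟩
  refine enlarge hg ε φ hφ1 hφ2 _ _ (n + 1 + n * (n + 2) ^ 2 * t) ?_ ?_ ?_ hD1 hDN hN2 hw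
  · rw [Fintype.card_prod, Fintype.card_prod, Fintype.card_prod, ZMod.card, ZMod.card, ZMod.card,
      ZMod.card]
    ring
  · rw [ZMod.card]
  · ring

end NegEtf
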