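import Pool.Agent.Lib_MP_3de5be_neg.Cls

/-!
# Cyclotomic group divisible designs

For every finite abelian group `G` and every `K ≥ 2` there are infinitely many primes `q` such that
there is a group divisible design with blocks of size `K`, with `q` groups of size `|G|`.
-/

set_option autoImplicit false

namespace NegEtf

open Finset

/-- A group divisible design with blocks of size `K` (every pair of points of different groups is
in exactly one block, two points of a block are in different groups). -/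
structure IsGDD {U P β : Type} (K : ℕ) (grp : P → U) (blk : β → Fin K → P) : Prop where
  tr : ∀ b i j, i ≠ j → grp (blk b i) ≠ grp (blk b j)
  ex : ∀ p p', grp p ≠ grp p' → ∃ b i j, blk b i = p ∧ blk b j = p'
  un : ∀ p p', grp p ≠ grp p' → ∀ b i j b' i' j', blk b i = p → blk b j = p' →
    blk b' i' = p → blk b' j' = p' → b = b' ∧ i = i' ∧ j = j'

section labels

variable (G : Type) [AddCommGroup G] [Fintype G] [DecidableEq G] (k : ℕ)

/-- Templates with a marked pair `i < j` of difference `η`. -/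
abbrev Tr (η : G) : Type :=
  {t : (Fin (k + 1) × Fin (k + 1)) × (Fin (k + 1) → G) //
    t.1.1 < t.1.2 ∧ t.2 0 = 0 ∧ t.2 t.1.2 - t.2 t.1.1 = η}

omit [Fintype G] [DecidableEq G] in
lemma shift_mem {η θ : G} (t : Tr G k η) :
    t.1.1.1 < t.1.1.2 ∧ Function.update t.1.2 t.1.1.2 (t.1.2 t.1.1.2 + θ) 0 = 0 ∧
      Function.update t.1.2 t.1.1.2 (t.1.2 t.1.1.2 + θ) t.1.1.2 -
        Function.update t.1.2 t.1.1.2 (t.1.2 t.1.1.2 + θ) t.1.1.1 = η + θ := by
  obtain ⟨⟨⟨i, j⟩, T⟩, h1, h2, h3⟩ := t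
  simp only at h1 h2 h3
  refine ⟨h1, ?_, ?_⟩
  · have h4 : (0 : Fin (k + 1)) ≠ j := by
      intro h5
      rw [← h5] at h1
      exact absurd h1 (by simp)
    simp only
    rw [Function.update_of_ne h4, h2]
  · simp only
    rw [Function.update_self, Function.update_of_ne h1.ne, ← h3]
    abel

lemma card_tr (η : G) : Fintype.card (Tr G k η) = Fintype.card (Tr G k 0) := by
  have hinj : ∀ η θ : G, Fintype.card (Tr G k η) ≤ Fintype.card (Tr G k θ) := by
    intro η θ
    refine Fintype.card_le_of_injective (fun t : Tr G k η =>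
      (⟨(t.1.1, Function.update t.1.2 t.1.1.2 (t.1.2 t.1.1.2 + (θ - η))), by
        have := shift_mem G k (θ := θ - η) t
        rwa [add_sub_cancel] at this⟩ : Tr G k θ)) ?_
    rintro ⟨⟨⟨i, j⟩, T⟩, h1, h2, h3⟩ ⟨⟨⟨i', j'⟩, T'⟩, h1', h2', h3'⟩ h
    simp only [Subtype.mk.injEq, Prod.mk.injEq] at h
    obtain ⟨⟨rfl, rfl⟩, h4⟩ := h
    have h5 : T = T' := by
      funext x
      by_cases hx : x = j
      · subst hx
        have := congrFun h4 x
        rw [Function.update_self, Function.update_self] at this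
        exact add_right_cancel this
      · have := congrFun h4 x
        rwa [Function.update_of_ne hx, Function.update_of_ne hx] at this
    subst h5
    rfl
  exact le_antisymm (hinj _ _) (hinj _ _)

theorem labels (hk : 1 ≤ k) : ∃ n, 1 ≤ n ∧
    ∃ lab : Fin (k + 1) → Fin (k + 1) → (Fin (k + 1) → G) → ℕ,
      (∀ i j T, i < j → T 0 = 0 → lab i j T < n) ∧
      (∀ η l, l < n → ∃ i j T, i < j ∧ T 0 = 0 ∧ T j - T i = η ∧ lab i j T = l) ∧
      (∀ i j T i' j' T', i < j → T 0 = 0 → i' < j' → T' 0 = 0 → T j - T i = T' j' - T' i' →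
        lab i j T = lab i' j' T' → i = i' ∧ j = j' ∧ T = T') := by
  classical
  let κ : ∀ η : G, Tr G k η ≃ Fin (Fintype.card (Tr G k 0)) := fun η =>
    Fintype.equivFinOfCardEq (card_tr G k η)
  let lab : Fin (k + 1) → Fin (k + 1) → (Fin (k + 1) → G) → ℕ := fun i j T =>
    if h : i < j ∧ T 0 = 0 then (κ (T j - T i) ⟨((i, j), T), h.1, h.2, rfl⟩ : ℕ) else 0
  have hlab : ∀ (η : G) (i j : Fin (k + 1)) (T : Fin (k + 1) → G) (h1 : i < j) (h2 : T 0 = 0)
      (h3 : T j - T i = η), lab i j T = (κ η ⟨((i, j), T), h1, h2, h3⟩ : ℕ) := by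
    intro η i j T h1 h2 h3
    subst h3
    simp only [lab]
    rw [dif_pos ⟨h1, h2⟩]
  refine ⟨Fintype.card (Tr G k 0), ?_, lab, ?_, ?_, ?_⟩
  · have h01 : (0 : Fin (k + 1)) < ⟨1, by omega⟩ := by
      rw [Fin.lt_def]
      simp
    exact Fintype.card_pos_iff.2 ⟨⟨((0, ⟨1, by omega⟩), 0), h01, rfl, by simp⟩⟩
  · intro i j T h1 h2
    rw [hlab _ i j T h1 h2 rfl]
    exact Fin.is_lt _
  · intro η l hl
    obtain ⟨t, ht⟩ : ∃ t, κ η t = ⟨l, hl⟩ := (κ η).surjective _
    obtain ⟨⟨⟨i, j⟩, T⟩, h1, h2, h3⟩ := t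
    exact ⟨i, j, T, h1, h2, h3, by rw [hlab η i j T h1 h2 h3, ht]⟩
  · intro i j T i' j' T' h1 h2 h1' h2' h3 h4
    rw [hlab _ i j T h1 h2 h3, hlab _ i' j' T' h1' h2' rfl] at h4
    have h5 := (κ (T' j' - T' i')).injective (Fin.ext h4)
    simp only [Subtype.mk.injEq, Prod.mk.injEq] at h5
    exact ⟨h5.1.1, h5.1.2, h5.2⟩

end labels

lemma val_lab {n l : ℕ} (hl : l < n) : ((l : ℕ) : ZMod (2 * n)).val = l := by
  rw [ZMod.val_natCast, Nat.mod_eq_of_lt (by omega)]

lemma val_lab_add {n l : ℕ} (hl : l < n) : ((l : ZMod (2 * n)) + n).val = l + n := by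
  have : ((l : ZMod (2 * n)) + n) = ((l + n : ℕ) : ZMod (2 * n)) := by push_cast; rfl
  rw [this, ZMod.val_natCast, Nat.mod_eq_of_lt (by omega)]

section counting

variable {U P β : Type} [Fintype P] [Fintype β] {K : ℕ} {grp : P → U} {blk : β → Fin K → P}

/-- The number of incidences `(b, i)` at a point. -/
lemma card_at [DecidableEq P] [DecidableEq U] (h : IsGDD K grp blk) (p : P) :
    Fintype.card {t : β × Fin K // blk t.1 t.2 = p} * (K - 1) =
      Fintype.card {p' : P // grp p ≠ grp p'} := by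
  classical
  have h1 : Fintype.card (Σ t : {t : β × Fin K // blk t.1 t.2 = p}, {j : Fin K // j ≠ t.1.2}) =
      Fintype.card {t : β × Fin K // blk t.1 t.2 = p} * (K - 1) := by
    rw [Fintype.card_sigma]
    have h2 : ∀ t : {t : β × Fin K // blk t.1 t.2 = p},
        Fintype.card {j : Fin K // j ≠ t.1.2} = K - 1 := by
      intro t
      rw [Fintype.card_subtype_compl, Fintype.card_subtype_eq, Fintype.card_fin]
    rw [sum_congr rfl fun t _ => h2 t, sum_const, card_univ, smul_eq_mul]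
  rw [← h1]
  refine Fintype.card_of_bijective (f := fun t => ⟨blk t.1.1.1 t.2.1, ?_⟩) ⟨?_, ?_⟩
  · obtain ⟨⟨⟨b, i⟩, hb⟩, ⟨j, hj⟩⟩ := t
    simp only at hb hj ⊢
    rw [← hb]
    exact h.tr b i j (Ne.symm hj)
  · rintro ⟨⟨⟨b, i⟩, hb⟩, ⟨j, hj⟩⟩ ⟨⟨⟨b', i'⟩, hb'⟩, ⟨j', hj'⟩⟩ he
    simp only [Subtype.mk.injEq] at hb hj hb' hj' he
    have h3 : grp p ≠ grp (blk b j) := by
      rw [← hb]
      exact h.tr b i j (Ne.symm hj)
    obtain ⟨rfl, rfl, rfl⟩ := h.un p (blk b j) h3 b i j b' i' j' hb rfl hb' he.symm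
    rfl
  · rintro ⟨p', hp'⟩
    obtain ⟨b, i, j, h3, h4⟩ := h.ex p p' hp'
    have hij : j ≠ i := by
      rintro rfl
      exact hp' (by rw [← h3, ← h4])
    exact ⟨⟨⟨(b, i), h3⟩, ⟨j, hij⟩⟩, by simp [h4]⟩

lemma card_blocks [DecidableEq P] (R : ℕ)
    (hR : ∀ p : P, Fintype.card {t : β × Fin K // blk t.1 t.2 = p} = R) :
    Fintype.card β * K = Fintype.card P * R := by
  classical
  have h1 : Fintype.card (β × Fin K) =
      Fintype.card (Σ p : P, {t : β × Fin K // blk t.1 t.2 = p}) :=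
    Fintype.card_congr (Equiv.sigmaFiberEquiv fun t : β × Fin K => blk t.1 t.2).symm
  rw [Fintype.card_prod, Fintype.card_fin, Fintype.card_sigma, sum_congr rfl fun p _ => hR p,
    sum_const, card_univ, smul_eq_mul] at h1
  exact h1

end counting

/-- Cyclotomic group divisible designs. -/
theorem exists_gdd (G : Type) [AddCommGroup G] [Fintype G] (k : ℕ) (hk : 1 ≤ k) (B : ℕ) :
    ∃ (q : ℕ) (_ : Fact q.Prime), B < q ∧ ∃ (β : Type) (_ : Fintype β)
      (blk : β → Fin (k + 1) → ZMod q × G), IsGDD (k + 1) Prod.fst blk := by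
  classical
  obtain ⟨n, hn, lab, lab1, lab2, lab3⟩ := labels G k hk
  have hne : NeZero (2 * n) := ⟨by omega⟩
  obtain ⟨Q, hQ⟩ := seq_exists (2 * n) (k + 1) 1
  obtain ⟨q, hq, hBq, L, hL, hL1⟩ := exists_cls n hn (max B Q)
  have hB : B < q := (le_max_left _ _).trans_lt hBq
  have hQq : Q ≤ q := ((le_max_right _ _).trans_lt hBq).le
  have hseq : ∀ T : Fin (k + 1) → G, ∃ a : Fin (k + 1) → ZMod q, ∀ i j, i < j →
      a j ≠ a i ∧ L (a j - a i) = (lab i j T : ℕ) := by
    intro T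
    obtain ⟨a, -, ha⟩ := hQ (ZMod q) L hL (by rw [ZMod.card]; exact hQq) (fun _ => univ)
      (by simp) (fun i j => ((lab i j T : ℕ) : ZMod (2 * n)))
    exact ⟨a, ha⟩
  choose a ha using hseq
  have hanti : ∀ T i j, i ≠ j → a T i ≠ a T j := by
    intro T i j hij
    rcases lt_or_gt_of_ne hij with h | h
    · exact (ha T i j h).1.symm
    · exact (ha T j i h).1
  have hLneg : ∀ x : ZMod q, x ≠ 0 → L (-x) = L x + n := by
    intro x hx
    have h1 : (-1 : ZMod q) ≠ 0 := by simp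
    have h2 := hL.mul (-1) x h1 hx
    rw [neg_one_mul, hL1] at h2
    rw [h2, add_comm]
  let blk : (ZMod q × G × {c : ZMod q // c ≠ 0 ∧ L c = 0} × {T : Fin (k + 1) → G // T 0 = 0}) →
      Fin (k + 1) → ZMod q × G := fun b i =>
    (a b.2.2.2.1 i * b.2.2.1.1 + b.1, b.2.2.2.1 i + b.2.1)
  have hdiff : ∀ b i j, (blk b j).1 - (blk b i).1 =
      (a b.2.2.2.1 j - a b.2.2.2.1 i) * b.2.2.1.1 := by
    intro b i j
    simp only [blk]
    ring
  have hdiff2 : ∀ b i j, (blk b j).2 - (blk b i).2 = b.2.2.2.1 j - b.2.2.2.1 i := by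
    intro b i j
    simp only [blk]
    abel
  have htr : ∀ b i j, i ≠ j → (blk b i).1 ≠ (blk b j).1 := by
    intro b i j hij h
    have h1 := hdiff b j i
    rw [h, sub_self] at h1
    rcases mul_eq_zero.1 h1.symm with h2 | h2
    · exact hanti _ i j hij (sub_eq_zero.1 h2)
    · exact b.2.2.1.2.1 h2
  -- the class of a difference
  have hcl : ∀ b i j, i < j → L ((blk b j).1 - (blk b i).1) = (lab i j b.2.2.2.1 : ℕ) := by
    intro b i j hij
    have h1 := ha b.2.2.2.1 i j hij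
    rw [hdiff, hL.mul _ _ (sub_ne_zero.2 h1.1) b.2.2.1.2.1, h1.2, b.2.2.1.2.2, add_zero]
  have hval : ∀ b i j, i < j → (L ((blk b j).1 - (blk b i).1)).val = lab i j b.2.2.2.1 := by
    intro b i j hij
    rw [hcl b i j hij, val_lab (lab1 _ _ _ hij b.2.2.2.2)]
  have hval2 : ∀ b i j, i < j → n ≤ (L ((blk b i).1 - (blk b j).1)).val := by
    intro b i j hij
    have h1 : (blk b j).1 - (blk b i).1 ≠ 0 := sub_ne_zero.2 (htr b j i hij.ne')
    have h2 : L ((blk b i).1 - (blk b j).1) = (lab i j b.2.2.2.1 : ℕ) + n := by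
      rw [← neg_sub, hLneg _ h1, hcl b i j hij]
    rw [h2, val_lab_add (lab1 _ _ _ hij b.2.2.2.2)]
    omega
  -- uniqueness for `i < j`
  have hun : ∀ p p' : ZMod q × G, ∀ b i j b' i' j', i < j → i' < j' → blk b i = p →
      blk b j = p' → blk b' i' = p → blk b' j' = p' → b = b' ∧ i = i' ∧ j = j' := by
    intro p p' b i j b' i' j' hij hij' h1 h2 h3 h4
    have h5 := hval b i j hij
    have h6 := hval b' i' j' hij'
    rw [h1, h2] at h5
    rw [h3, h4] at h6
    have h7 := hdiff2 b i j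
    have h8 := hdiff2 b' i' j'
    rw [h1, h2] at h7
    rw [h3, h4] at h8
    obtain ⟨rfl, rfl, hT⟩ := lab3 i j b.2.2.2.1 i' j' b'.2.2.2.1 hij b.2.2.2.2 hij' b'.2.2.2.2
      (h7.symm.trans h8) (h5.symm.trans h6)
    refine ⟨?_, rfl, rfl⟩
    obtain ⟨x, g, ⟨c, hc⟩, ⟨T, hT0⟩⟩ := b
    obtain ⟨x', g', ⟨c', hc'⟩, ⟨T', hT0'⟩⟩ := b'
    simp only at hT
    subst hT
    have h9 := hdiff (x, g, ⟨c, hc⟩, ⟨T, hT0⟩) i j
    have h10 := hdiff (x', g', ⟨c', hc'⟩, ⟨T, hT0'⟩) i j
    rw [h1, h2] at h9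
    rw [h3, h4] at h10
    simp only at h9 h10
    have h11 : c = c' := by
      have h12 : a T j - a T i ≠ 0 := sub_ne_zero.2 (ha T i j hij).1
      exact mul_left_cancel₀ h12 (h9.symm.trans h10)
    subst h11
    have h12 := h1.trans h3.symm
    simp only [blk, Prod.mk.injEq] at h12
    have h13 : x = x' := add_left_cancel h12.1
    have h14 : g = g' := add_left_cancel h12.2
    subst h13 h14
    rfl
  -- existence for small classes
  have hex : ∀ p p' : ZMod q × G, p.1 ≠ p'.1 → (L (p'.1 - p.1)).val < n →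
      ∃ b i j, blk b i = p ∧ blk b j = p' := by
    intro p p' hp hl
    have hd : p'.1 - p.1 ≠ 0 := sub_ne_zero.2 hp.symm
    obtain ⟨i, j, T, hij, hT0, hT, hlab⟩ := lab2 (p'.2 - p.2) _ hl
    have h1 := ha T i j hij
    have h2 : a T j - a T i ≠ 0 := sub_ne_zero.2 h1.1
    have h3 : L (a T j - a T i) = L (p'.1 - p.1) := by
      rw [h1.2, hlab, ZMod.natCast_zmod_val]
    have h4 : (p'.1 - p.1) / (a T j - a T i) ≠ 0 := div_ne_zero hd h2
    have h5 : L ((p'.1 - p.1) / (a T j - a T i)) = 0 := by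
      have h6 := hL.mul _ _ h4 h2
      rw [div_mul_cancel₀ _ h2, h3] at h6
      simpa using h6
    refine ⟨(p.1 - a T i * ((p'.1 - p.1) / (a T j - a T i)), p.2 - T i, ⟨_, h4, h5⟩, ⟨T, hT0⟩),
      i, j, ?_, ?_⟩
    · simp only [blk]
      ext
      · simp
      · simp
    · simp only [blk]
      ext
      · simp only
        field_simp
        ring
      · simp only
        have h7 : T j = p'.2 - p.2 + T i := by rw [← hT]; abel
        rw [h7]
        abel
  refine ⟨q, hq, hB, _, inferInstance, blk, htr, ?_, ?_⟩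
  · intro p p' hp
    by_cases h1 : (L (p'.1 - p.1)).val < n
    · exact hex p p' hp h1
    · have hd : p'.1 - p.1 ≠ 0 := sub_ne_zero.2 (Ne.symm hp)
      have h2 : (L (p.1 - p'.1)).val < n := by
        have h3 : L (p.1 - p'.1) = L (p'.1 - p.1) + n := by
          rw [← neg_sub, hLneg _ hd]
        have h4 := (L (p'.1 - p.1)).val_lt
        have h5 : L (p.1 - p'.1) = (((L (p'.1 - p.1)).val - n : ℕ) : ZMod (2 * n)) := by
          rw [h3, Nat.cast_sub (by omega), ZMod.natCast_zmod_val]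
          have h6 : ((2 * n : ℕ) : ZMod (2 * n)) = 0 := ZMod.natCast_self _
          push_cast at h6
          linear_combination h6
        rw [h5, val_lab (by omega)]
        omega
      obtain ⟨b, i, j, h3, h4⟩ := hex p' p (Ne.symm hp) h2
      exact ⟨b, j, i, h4, h3⟩
  · intro p p' hp b i j b' i' j' h1 h2 h3 h4
    have hij : i ≠ j := by
      rintro rfl
      exact hp (by rw [← h1, ← h2])
    have hij' : i' ≠ j' := by
      rintro rfl
      exact hp (by rw [← h3, ← h4])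
    rcases lt_or_gt_of_ne hij with h5 | h5 <;> rcases lt_or_gt_of_ne hij' with h6 | h6
    · exact hun p p' b i j b' i' j' h5 h6 h1 h2 h3 h4
    · exfalso
      have h7 := hval b i j h5
      have h8 := hval2 b' j' i' h6
      rw [h1, h2] at h7
      rw [h3, h4] at h8
      have h9 := lab1 i j _ h5 b.2.2.2.2
      omega
    · exfalso
      have h7 := hval b' i' j' h6
      have h8 := hval2 b j i h5
      rw [h3, h4] at h7
      rw [h1, h2] at h8
      have h9 := lab1 i' j' _ h6 b'.2.2.2.2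
      omega
    · obtain ⟨h7, h8, h9⟩ := hun p' p b j i b' j' i' h5 h6 h2 h1 h4 h3
      exact ⟨h7, h9, h8⟩

end NegEtf
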