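import Mathlib

/-!
# Sequences with prescribed cyclotomic classes

`F` a finite field, `L` a class function on the nonzero elements with values in `ZMod e`
(a surjective homomorphism).  If `F` is large, then there are `a_0, ..., a_(k-1)` in `F` with
prescribed classes of all differences `a_j - a_i`, `i < j`.
-/

set_option autoImplicit false

namespace NegEtf

open Finset

/-- A surjective homomorphism from the nonzero elements of `F` to `ZMod e`. -/
structure IsCls {F : Type} [Field F] (e : ℕ) (L : F → ZMod e) : Prop where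
  mul : ∀ x y : F, x ≠ 0 → y ≠ 0 → L (x * y) = L x + L y
  surj : ∀ c : ZMod e, ∃ x : F, x ≠ 0 ∧ L x = c

section

variable {F : Type} [Field F] [Fintype F] [DecidableEq F] {e : ℕ} [NeZero e]

/-- The elements of `A` in the class `c` seen from `x`. -/
def nb (L : F → ZMod e) (A : Finset F) (c : ZMod e) (x : F) : Finset F :=
  A.filter fun a => a ≠ x ∧ L (a - x) = c

/-- The kernel. -/
def ker (L : F → ZMod e) : Finset F := univ.filter fun y => y ≠ 0 ∧ L y = 0

omit [NeZero e] [DecidableEq F] [Fintype F] in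
lemma IsCls.one {L : F → ZMod e} (h : IsCls e L) : L 1 = 0 := by
  have := h.mul 1 1 one_ne_zero one_ne_zero
  rw [mul_one] at this
  simpa using this

lemma card_ker {L : F → ZMod e} (h : IsCls e L) : e * (ker L).card + 1 ≤ Fintype.card F := by
  have h1 : ∀ c : ZMod e, (ker L).card ≤
      ((univ.erase (0 : F)).filter fun y => L y = c).card := by
    intro c
    obtain ⟨x, hx, hxc⟩ := h.surj c
    refine card_le_card_of_injOn (fun y => y * x) ?_ ?_
    · intro y hy
      simp only [ker, coe_filter, mem_univ, true_and, Set.mem_ofPred_eq] at hy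
      simp only [coe_filter, mem_erase, mem_univ, and_true, Set.mem_ofPred_eq, ne_eq]
      refine ⟨mul_ne_zero hy.1 hx, ?_⟩
      rw [h.mul _ _ hy.1 hx, hy.2, hxc, zero_add]
    · intro y _ z _ hyz
      exact mul_right_cancel₀ hx hyz
  have h2 : (univ.erase (0 : F)).card =
      ∑ c : ZMod e, ((univ.erase (0 : F)).filter fun y => L y = c).card :=
    card_eq_sum_card_fiberwise fun _ _ => mem_univ _
  have h3 : (univ.erase (0 : F)).card + 1 = Fintype.card F := by
    rw [card_erase_add_one (mem_univ _), card_univ]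
  have h4 : ∑ _c : ZMod e, (ker L).card ≤
      ∑ c : ZMod e, ((univ.erase (0 : F)).filter fun y => L y = c).card :=
    sum_le_sum fun c _ => h1 c
  rw [sum_const, card_univ, ZMod.card, smul_eq_mul] at h4
  omega

omit [NeZero e] in
lemma card_pair {L : F → ZMod e} (h : IsCls e L) (a b : F) (hab : a ≠ b) :
    (univ.filter fun x : F => (a ≠ x ∧ b ≠ x) ∧ L (a - x) = L (b - x)).card + 1 ≤
      (ker L).card := by
  have h1 : (1 : F) ∈ ker L := by simp [ker, h.one]
  rw [← card_erase_add_one h1]
  apply Nat.add_le_add_right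
  refine card_le_card_of_injOn (fun x => (a - x) / (b - x)) ?_ ?_
  · intro x hx
    simp only [coe_filter, mem_univ, true_and, Set.mem_ofPred_eq] at hx
    obtain ⟨⟨h2, h3⟩, h4⟩ := hx
    have h2' : a - x ≠ 0 := sub_ne_zero.2 h2
    have h3' : b - x ≠ 0 := sub_ne_zero.2 h3
    have h5 : (a - x) / (b - x) ≠ 0 := div_ne_zero h2' h3'
    simp only [ker, coe_erase, coe_filter, mem_univ, true_and, Set.mem_sdiff, Set.mem_ofPred_eq,
      Set.mem_singleton_iff]
    refine ⟨⟨h5, ?_⟩, ?_⟩
    · have h6 := h.mul _ _ h5 h3'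
      rw [div_mul_cancel₀ _ h3', h4] at h6
      simpa using h6
    · rw [div_eq_one_iff_eq h3']
      intro h6
      exact hab (sub_left_injective h6)
  · intro x hx y hy hxy
    simp only [coe_filter, mem_univ, true_and, Set.mem_ofPred_eq] at hx hy
    have h2 : b - x ≠ 0 := sub_ne_zero.2 hx.1.2
    have h3 : b - y ≠ 0 := sub_ne_zero.2 hy.1.2
    simp only at hxy
    rw [div_eq_div_iff h2 h3] at hxy
    have h4 : (a - b) * (x - y) = 0 := by linear_combination hxy
    rcases mul_eq_zero.1 h4 with h5 | h5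
    · exact absurd (sub_eq_zero.1 h5) hab
    · exact sub_eq_zero.1 h5

omit [Fintype F] in
lemma sum_nb (L : F → ZMod e) (A : Finset F) (x : F) :
    ∑ c : ZMod e, (nb L A c x).card = (A.erase x).card := by
  rw [card_eq_sum_card_fiberwise (t := (univ : Finset (ZMod e))) (f := fun a => L (a - x))
    (s := A.erase x) fun _ _ => mem_univ _]
  refine sum_congr rfl fun c _ => ?_
  congr 1
  ext a
  simp only [nb, mem_filter, mem_erase]
  tauto

lemma sum_nb_sq (L : F → ZMod e) (A : Finset F) :
    ∑ x : F, ∑ c : ZMod e, (nb L A c x).card ^ 2 =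
      ∑ a ∈ A, ∑ b ∈ A,
        (univ.filter fun x : F => (a ≠ x ∧ b ≠ x) ∧ L (a - x) = L (b - x)).card := by
  have h1 : ∀ x : F, ∑ c : ZMod e, (nb L A c x).card ^ 2 =
      ∑ a ∈ A, ∑ b ∈ A, if (a ≠ x ∧ b ≠ x) ∧ L (a - x) = L (b - x) then 1 else 0 := by
    intro x
    have h2 : ∀ c : ZMod e, (nb L A c x).card ^ 2 =
        ∑ a ∈ A, ∑ b ∈ A, if (a ≠ x ∧ L (a - x) = c) ∧ (b ≠ x ∧ L (b - x) = c) then 1 else 0 := by
      intro c
      rw [pow_two, nb, card_filter, sum_mul_sum]
      refine sum_congr rfl fun a _ => sum_congr rfl fun b _ => ?_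
      by_cases h3 : a ≠ x ∧ L (a - x) = c <;> by_cases h4 : b ≠ x ∧ L (b - x) = c <;>
        simp [h3, h4]
    rw [sum_congr rfl fun c _ => h2 c, sum_comm]
    refine sum_congr rfl fun a _ => ?_
    rw [sum_comm]
    refine sum_congr rfl fun b _ => ?_
    by_cases h3 : (a ≠ x ∧ b ≠ x) ∧ L (a - x) = L (b - x)
    · rw [if_pos h3]
      rw [sum_eq_single (L (a - x))]
      · rw [if_pos ⟨⟨h3.1.1, rfl⟩, h3.1.2, h3.2.symm⟩]
      · intro c _ hc
        rw [if_neg]
        rintro ⟨⟨-, h5⟩, -⟩
        exact hc h5.symm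
      · intro h5
        exact absurd (mem_univ _) h5
    · rw [if_neg h3]
      refine sum_eq_zero fun c _ => ?_
      rw [if_neg]
      rintro ⟨⟨h5, h6⟩, h7, h8⟩
      exact h3 ⟨⟨h5, h7⟩, h6.trans h8.symm⟩
  rw [sum_congr rfl fun x _ => h1 x, sum_comm]
  refine sum_congr rfl fun a _ => ?_
  rw [sum_comm]
  refine sum_congr rfl fun b _ => ?_
  rw [card_filter]

/-- Second moment. -/
lemma second_moment {L : F → ZMod e} (h : IsCls e L) (A : Finset F) :
    ∑ x : F, ∑ c : ZMod e, ((e : ℤ) * (nb L A c x).card - (A.erase x).card) ^ 2 ≤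
      (e : ℤ) ^ 2 * Fintype.card F * A.card := by
  set q : ℤ := ((Fintype.card F : ℕ) : ℤ) with hq
  set m : ℤ := ((A.card : ℕ) : ℤ) with hm
  set C : ℤ := (((ker L).card : ℕ) : ℤ) with hC
  have he : (1 : ℤ) ≤ e := by exact_mod_cast NeZero.one_le
  have hCk : (e : ℤ) * C + 1 ≤ q := by
    rw [hC, hq]; exact_mod_cast card_ker h
  have hm0 : 0 ≤ m := by positivity
  have hmq : m ≤ q := by rw [hm, hq]; exact_mod_cast card_le_univ A
  -- the sum of squares
  have h1 : (∑ x : F, ∑ c : ZMod e, ((nb L A c x).card : ℤ) ^ 2) ≤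
      m * (q - 1) + m * (m - 1) * (C - 1) := by
    have h2 := sum_nb_sq L A
    have h2' : (∑ x : F, ∑ c : ZMod e, ((nb L A c x).card : ℤ) ^ 2) =
        ∑ a ∈ A, ∑ b ∈ A,
        ((univ.filter fun x : F => (a ≠ x ∧ b ≠ x) ∧ L (a - x) = L (b - x)).card : ℤ) := by
      exact_mod_cast h2
    rw [h2']
    have h3 : ∀ a ∈ A, (∑ b ∈ A,
        ((univ.filter fun x : F => (a ≠ x ∧ b ≠ x) ∧ L (a - x) = L (b - x)).card : ℤ)) ≤
        (q - 1) + (m - 1) * (C - 1) := by
      intro a ha
      rw [← add_sum_erase A _ ha]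
      apply add_le_add
      · have h4 : (univ.filter fun x : F => (a ≠ x ∧ a ≠ x) ∧ L (a - x) = L (a - x)) =
            univ.erase a := by
          ext x
          simp [eq_comm]
        rw [h4, card_erase_of_mem (mem_univ _), card_univ]
        have : 1 ≤ Fintype.card F := Fintype.card_pos
        rw [hq]
        push_cast [Nat.cast_sub this]
        exact le_refl _
      · have h5 : ∀ b ∈ A.erase a,
            ((univ.filter fun x : F => (a ≠ x ∧ b ≠ x) ∧ L (a - x) = L (b - x)).card : ℤ) ≤
            C - 1 := by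
          intro b hb
          have h6 := card_pair h a b (ne_of_mem_erase hb).symm
          have h7 : ((univ.filter fun x : F => (a ≠ x ∧ b ≠ x) ∧ L (a - x) = L (b - x)).card : ℤ)
              + 1 ≤ C := by rw [hC]; exact_mod_cast h6
          linarith
        refine (sum_le_sum h5).trans (le_of_eq ?_)
        rw [sum_const, card_erase_of_mem ha, nsmul_eq_mul]
        have : 1 ≤ A.card := card_pos.2 ⟨a, ha⟩
        rw [hm]
        push_cast [Nat.cast_sub this]
        ring
    refine (sum_le_sum h3).trans (le_of_eq ?_)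
    rw [sum_const, nsmul_eq_mul, ← hm]
    ring
  -- the sizes
  have h2 : (∑ x : F, (((A.erase x).card : ℤ)) ^ 2) = q * m ^ 2 - 2 * m ^ 2 + m := by
    have h3 : ∀ x : F, (((A.erase x).card : ℤ)) ^ 2 =
        m ^ 2 - (if x ∈ A then (2 * m - 1) else 0) := by
      intro x
      by_cases hx : x ∈ A
      · rw [if_pos hx, card_erase_of_mem hx]
        have : 1 ≤ A.card := card_pos.2 ⟨x, hx⟩
        rw [hm]
        push_cast [Nat.cast_sub this]
        ring
      · rw [if_neg hx, erase_eq_of_notMem hx]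
        ring
    rw [sum_congr rfl fun x _ => h3 x, sum_sub_distrib, sum_const, card_univ, nsmul_eq_mul,
      sum_ite_mem, univ_inter, sum_const, nsmul_eq_mul, ← hm, ← hq]
    ring
  have h3 : ∀ x : F, ∑ c : ZMod e, ((e : ℤ) * (nb L A c x).card - (A.erase x).card) ^ 2 =
      (e : ℤ) ^ 2 * (∑ c : ZMod e, ((nb L A c x).card : ℤ) ^ 2) -
        e * ((A.erase x).card : ℤ) ^ 2 := by
    intro x
    have h4 : (∑ c : ZMod e, ((nb L A c x).card : ℤ)) = (A.erase x).card := by
      exact_mod_cast sum_nb L A x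
    have h5 : ∀ c : ZMod e, ((e : ℤ) * (nb L A c x).card - (A.erase x).card) ^ 2 =
        (e : ℤ) ^ 2 * ((nb L A c x).card : ℤ) ^ 2 -
          (2 * e * (A.erase x).card) * ((nb L A c x).card : ℤ) + ((A.erase x).card : ℤ) ^ 2 :=
      fun c => by ring
    rw [sum_congr rfl fun c _ => h5 c, sum_add_distrib, sum_sub_distrib, ← mul_sum, ← mul_sum, h4,
      sum_const, card_univ, ZMod.card, nsmul_eq_mul]
    ring
  rw [sum_congr rfl fun x _ => h3 x, sum_sub_distrib, ← mul_sum, ← mul_sum, h2]
  rcases eq_or_ne m 0 with hm1 | hm1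
  · rw [hm1] at h1 ⊢
    have h6 : (e : ℤ) ^ 2 * (∑ x : F, ∑ c : ZMod e, ((nb L A c x).card : ℤ) ^ 2) ≤ 0 := by
      have h7 : (∑ x : F, ∑ c : ZMod e, ((nb L A c x).card : ℤ) ^ 2) ≤ 0 := by simpa using h1
      nlinarith [sq_nonneg (e : ℤ)]
    simpa using h6
  · have hm2 : 1 ≤ m := by omega
    have h6 : (e : ℤ) ^ 2 * (∑ x : F, ∑ c : ZMod e, ((nb L A c x).card : ℤ) ^ 2) ≤
        (e : ℤ) ^ 2 * (m * (q - 1)) + e * (m * (m - 1)) * (q - 1 - e) := by
      have h7 : (e : ℤ) ^ 2 * (∑ x : F, ∑ c : ZMod e, ((nb L A c x).card : ℤ) ^ 2) ≤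
          (e : ℤ) ^ 2 * (m * (q - 1) + m * (m - 1) * (C - 1)) :=
        mul_le_mul_of_nonneg_left h1 (sq_nonneg _)
      have h8 : (e : ℤ) * (m * (m - 1)) * (e * (C - 1)) ≤
          e * (m * (m - 1)) * (q - 1 - e) := by
        apply mul_le_mul_of_nonneg_left
        · linarith
        · have : 0 ≤ m - 1 := by linarith
          positivity
      nlinarith
    have h9 : (e : ℤ) ^ 2 * (m * (q - 1)) + e * (m * (m - 1)) * (q - 1 - e) -
        e * (q * m ^ 2 - 2 * m ^ 2 + m) = e * m * ((e - 1) * (q - m)) := by ring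
    have h10 : (e : ℤ) * m * ((e - 1) * (q - m)) ≤ e ^ 2 * q * m := by
      have h11 : ((e : ℤ) - 1) * (q - m) ≤ e * q := by nlinarith
      have h12 : (0 : ℤ) ≤ e * m := by positivity
      nlinarith
    linarith

/-- The points that see few elements of `A` in the class `c`. -/
def bad (L : F → ZMod e) (A : Finset F) (c : ZMod e) : Finset F :=
  univ.filter fun x => 2 * e * (nb L A c x).card < (A.erase x).card

lemma card_bad {L : F → ZMod e} (h : IsCls e L) (A : Finset F) (c : ZMod e) (D : ℕ)
    (hA : 2 ≤ A.card) (hD : Fintype.card F ≤ D * A.card) :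
    (bad L A c).card ≤ 16 * e ^ 2 * D := by
  have h1 : ∑ x ∈ bad L A c, ((A.card : ℤ) - 1) ^ 2 ≤
      4 * ((e : ℤ) ^ 2 * Fintype.card F * A.card) := by
    calc ∑ x ∈ bad L A c, ((A.card : ℤ) - 1) ^ 2
        ≤ ∑ x ∈ bad L A c, 4 * ((e : ℤ) * (nb L A c x).card - (A.erase x).card) ^ 2 := by
          refine sum_le_sum fun x hx => ?_
          simp only [bad, mem_filter, mem_univ, true_and] at hx
          have h2 : (2 : ℤ) * e * (nb L A c x).card < (A.erase x).card := by exact_mod_cast hx
          have h3 : (A.card : ℤ) - 1 ≤ (A.erase x).card := by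
            have := pred_card_le_card_erase (s := A) (a := x)
            omega
          have h4 : (0 : ℤ) ≤ (A.card : ℤ) - 1 := by
            have : (2 : ℤ) ≤ A.card := by exact_mod_cast hA
            linarith
          nlinarith
      _ ≤ ∑ x : F, 4 * ((e : ℤ) * (nb L A c x).card - (A.erase x).card) ^ 2 :=
          sum_le_sum_of_subset_of_nonneg (subset_univ _) fun _ _ _ => by positivity
      _ ≤ ∑ x : F, 4 * ∑ c : ZMod e, ((e : ℤ) * (nb L A c x).card - (A.erase x).card) ^ 2 := by
          refine sum_le_sum fun x _ => mul_le_mul_of_nonneg_left ?_ (by norm_num)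
          exact single_le_sum (f := fun c : ZMod e =>
            ((e : ℤ) * (nb L A c x).card - (A.erase x).card) ^ 2) (fun _ _ => sq_nonneg _)
            (mem_univ c)
      _ ≤ _ := by
          rw [← mul_sum]
          exact mul_le_mul_of_nonneg_left (second_moment h A) (by norm_num)
  rw [sum_const, nsmul_eq_mul] at h1
  set b : ℤ := (((bad L A c).card : ℕ) : ℤ) with hb
  set m : ℤ := ((A.card : ℕ) : ℤ) with hm
  have hm2 : (2 : ℤ) ≤ m := by rw [hm]; exact_mod_cast hA
  have hq : (Fintype.card F : ℤ) ≤ D * m := by rw [hm]; exact_mod_cast hD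
  have h2 : b * (m - 1) ^ 2 ≤ 16 * (e : ℤ) ^ 2 * D * (m - 1) ^ 2 := by
    have h3 : 4 * ((e : ℤ) ^ 2 * Fintype.card F * m) ≤ 4 * ((e : ℤ) ^ 2 * (D * m) * m) := by
      apply mul_le_mul_of_nonneg_left _ (by norm_num)
      apply mul_le_mul_of_nonneg_right _ (by linarith)
      exact mul_le_mul_of_nonneg_left hq (sq_nonneg _)
    have h4 : m ^ 2 ≤ 4 * (m - 1) ^ 2 := by nlinarith
    have h5 : 4 * ((e : ℤ) ^ 2 * (D * m) * m) ≤ 16 * (e : ℤ) ^ 2 * D * (m - 1) ^ 2 := by
      have h6 : (0 : ℤ) ≤ 4 * (e : ℤ) ^ 2 * D := by positivity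
      nlinarith
    linarith
  have h3 : (0 : ℤ) < (m - 1) ^ 2 := by
    have : (0 : ℤ) < m - 1 := by linarith
    positivity
  have h4 := le_of_mul_le_mul_right h2 h3
  rw [hb] at h4
  exact_mod_cast h4

end

/-- Sequences with prescribed classes of the differences. -/
theorem seq_exists (e : ℕ) [NeZero e] (k : ℕ) : ∀ D : ℕ, ∃ Q : ℕ,
    ∀ (F : Type) [Field F] [Fintype F] [DecidableEq F] (L : F → ZMod e), IsCls e L →
      Q ≤ Fintype.card F → ∀ A : Fin k → Finset F, (∀ j, Fintype.card F ≤ D * (A j).card) →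
      ∀ c : Fin k → Fin k → ZMod e, ∃ a : Fin k → F, (∀ j, a j ∈ A j) ∧
        ∀ i j, i < j → a j ≠ a i ∧ L (a j - a i) = c i j := by
  induction k with
  | zero => exact fun D => ⟨0, fun F _ _ _ L _ _ A _ c => ⟨fun j => j.elim0, fun j => j.elim0,
      fun i => i.elim0⟩⟩
  | succ k ih =>
    intro D
    obtain ⟨Q', hQ'⟩ := ih (4 * e * D)
    refine ⟨max Q' (D * (k * (16 * e ^ 2 * D) + 2) + 1), fun F _ _ _ L hL hQ A hA c => ?_⟩
    have hq1 : Q' ≤ Fintype.card F := (le_max_left _ _).trans hQ
    have hq2 : D * (k * (16 * e ^ 2 * D) + 2) < Fintype.card F :=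
      Nat.lt_of_succ_le ((le_max_right _ _).trans hQ)
    have hbig : ∀ j, k * (16 * e ^ 2 * D) + 2 < (A j).card := by
      intro j
      by_contra h1
      push Not at h1
      have h2 := hA j
      have h3 : D * (A j).card ≤ D * (k * (16 * e ^ 2 * D) + 2) := Nat.mul_le_mul_left _ h1
      omega
    have hex : ∃ x ∈ A 0, x ∉ (univ : Finset (Fin k)).biUnion
        fun j => bad L (A j.succ) (c 0 j.succ) := by
      by_contra h1
      push Not at h1
      have h2 : (A 0).card ≤ ((univ : Finset (Fin k)).biUnion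
        fun j => bad L (A j.succ) (c 0 j.succ)).card := card_le_card h1
      have h3 := h2.trans (card_biUnion_le (s := (univ : Finset (Fin k)))
        (t := fun j => bad L (A j.succ) (c 0 j.succ)))
      have h4 : ∑ j : Fin k, (bad L (A j.succ) (c 0 j.succ)).card ≤
          ∑ _j : Fin k, 16 * e ^ 2 * D :=
        sum_le_sum fun j _ => card_bad hL _ _ D (by have := hbig j.succ; omega) (hA _)
      rw [sum_const, card_univ, Fintype.card_fin, smul_eq_mul] at h4
      have h5 := hbig 0
      omega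
    obtain ⟨x, hx, hxb⟩ := hex
    have hgood : ∀ j : Fin k, ((A j.succ).erase x).card ≤
        2 * e * (nb L (A j.succ) (c 0 j.succ) x).card := by
      intro j
      by_contra h1
      push Not at h1
      exact hxb (mem_biUnion.2 ⟨j, mem_univ _, by simp [bad, h1]⟩)
    obtain ⟨a, ha1, ha2⟩ := hQ' F L hL hq1 (fun j => nb L (A j.succ) (c 0 j.succ) x) (by
      intro j
      have h1 := hA j.succ
      have h2 := hgood j
      have h3 : (A j.succ).card ≤ ((A j.succ).erase x).card + 1 := by
        have := pred_card_le_card_erase (s := A j.succ) (a := x)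
        omega
      have h4 := hbig j.succ
      have h5 : (A j.succ).card ≤ 4 * e * (nb L (A j.succ) (c 0 j.succ) x).card := by
        have h6 : (A j.succ).card ≤ 2 * ((A j.succ).erase x).card := by omega
        calc (A j.succ).card ≤ 2 * ((A j.succ).erase x).card := h6
          _ ≤ 2 * (2 * e * (nb L (A j.succ) (c 0 j.succ) x).card) := Nat.mul_le_mul_left _ h2
          _ = _ := by ring
      calc Fintype.card F ≤ D * (A j.succ).card := h1
        _ ≤ D * (4 * e * (nb L (A j.succ) (c 0 j.succ) x).card) := Nat.mul_le_mul_left _ h5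
        _ = _ := by ring) (fun i j => c i.succ j.succ)
    refine ⟨Fin.cons x a, ?_, ?_⟩
    · intro j
      refine Fin.cases ?_ (fun j => ?_) j
      · simpa using hx
      · have h1 := ha1 j
        simp only [nb, mem_filter] at h1
        simpa using h1.1
    · intro i j
      refine Fin.cases ?_ (fun i => ?_) i
      · refine Fin.cases ?_ (fun j => ?_) j
        · intro h
          exact absurd h (lt_irrefl _)
        · intro _
          have h1 := ha1 j
          simp only [nb, mem_filter] at h1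
          simpa using h1.2
      · refine Fin.cases ?_ (fun j => ?_) j
        · intro h
          exact absurd h (by simp)
        · intro h
          have h1 := ha2 i j (Fin.succ_lt_succ_iff.1 h)
          simpa using h1

end NegEtf
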